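import Pool.Agent.Helper35.S1.Core
import Pool.Agent.Helper52.SL.Std

/-!
# ST(1), systems

A connected system of lines in the plane with a robust profile: there is a level `e` up to which the line is constant,
and `h (P_1 | t) = 1 - e`.
-/

set_option autoImplicit false

namespace Pool.Agent.Helper35.S1

open Filter Topology Pool.Agent.Helper69.RK Pool.Agent.Helper31.EC Pool.Agent.Helper31.EC.Sp
open Pool.Agent.Helper31.EC.QS Pool.Agent.Helper40.EL Pool.Agent.Helper52.SL

noncomputable section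

variable {S : Sp}

/-- the coordinate of a one-dimensional variable -/
def co (y : S.VV 1) : QS S := mk (TR.cor y 0)

theorem co_dg (y : S.VV 1) {r : ℝ} (hr : r ≤ 1) : dg (co y) r = y.dg r := by
  unfold co
  rw [dg_mk _ hr]
  have h1 : (fun _ : Fin 1 => TR.cor y 0) = TR.cor y := by
    funext i
    rw [Subsingleton.elim i 0]
  show (TR.vec (fun _ : Fin 1 => TR.cor y 0)).dg r = y.dg r
  rw [h1, TR.vec_cor]

theorem co_P (s : Sys S 1) : co s.P = co s.a + co s.t * co s.x := by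
  unfold co
  rw [← map_mul, ← map_add]
  congr 1

/-- the entropy of the line is Lipschitz in the level -/
theorem H_xi_lip (s : Sys S 1) {v r : ℝ} (hvr : v ≤ r) : H (s.xi r) ≤ H (s.xi v) + 2 * (r - v) := by
  have h1 : H (s.xi r) ≤ H (s.xi v ⊔ s.xi r) := H_mono le_sup_right
  have h2 : H (s.xi v ⊔ s.xi r) = H (s.xi v) + h (s.xi r) (s.xi v) := H_chain _ _
  have h3 : h (s.xi r) (s.xi v) ≤ h (s.a.dg r) (s.xi v) + h (s.x.dg r) (s.xi v) := h_sup_le _ _ _
  have h4 : h (s.a.dg r) (s.xi v) ≤ h (s.a.dg r) (s.a.dg v) := h_anti le_sup_left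
  have h5 : h (s.x.dg r) (s.xi v) ≤ h (s.x.dg r) (s.x.dg v) := h_anti le_sup_right
  have h6 := s.a.h_dg_dg hvr
  have h7 := s.x.h_dg_dg hvr
  rw [Nat.cast_one, one_mul] at h6 h7
  linarith

/-- the last level up to which the line is constant -/
theorem exists_const_level (s : Sys S 1) : ∃ e : ℝ, 0 ≤ e ∧ e ≤ 1 ∧ H (s.xi e) = 0 ∧
    ∀ u : ℝ, e < u → u ≤ 1 → 0 < H (s.xi u) := by
  set A : Set ℝ := {r | 0 ≤ r ∧ r ≤ 1 ∧ H (s.xi r) = 0} with hA
  have h0 : (0 : ℝ) ∈ A := by
    refine ⟨le_rfl, zero_le_one, ?_⟩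
    unfold Sys.xi
    rw [s.a.dg_nonpos le_rfl, s.x.dg_nonpos le_rfl, sup_bot_eq, H_bot]
  have hb : BddAbove A := ⟨1, fun r hr => hr.2.1⟩
  have he0 : 0 ≤ sSup A := le_csSup hb h0
  have he1 : sSup A ≤ 1 := csSup_le ⟨0, h0⟩ fun r hr => hr.2.1
  refine ⟨sSup A, he0, he1, ?_, fun u hu hu1 => ?_⟩
  · apply le_antisymm _ (H_nonneg _)
    apply le_of_forall_pos_le_add
    intro ε hε
    obtain ⟨r, hr, hr2⟩ := exists_lt_of_lt_csSup ⟨0, h0⟩ (show sSup A - ε / 2 < sSup A by linarith)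
    have h1 := H_xi_lip s (le_csSup hb hr)
    rw [hr.2.2] at h1
    linarith
  · rcases eq_or_lt_of_le (H_nonneg (s.xi u)) with h | h
    · have h1 : u ∈ A := ⟨he0.trans hu.le, hu1, h.symm⟩
      exact absurd (le_csSup hb h1) (not_le.mpr hu)
    · exact h

/-- common functions of the line and of the point are constant in connected systems -/
theorem H_common {m : ℕ} (s : Sys S m) (hic : ic s 0 = 0) {Y : S.L} (hA : Y ≤ s.xi 1) (hB : Y ≤ lB s) : H Y = 0 := by
  have hk := kap_isKap s 0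
  have h1 : up1 (kap s 0) Y = ⊥ := by
    have h2 : (kap s 0).IsMaxL (lA s 0) (lB s) := IsKap_iff.mp hk
    exact h2.common (hA.trans le_sup_left) hB
  have h2 : ic s 0 = H (s.xi 1) - H (up1 (kap s 0) (s.xi 1)) := hk.ic_xi le_rfl zero_le_one
  have h3 : H (s.xi 1) = H Y + h (s.xi 1) Y := by
    rw [← H_chain, sup_eq_right.mpr hA]
  have h4 : H (up1 (kap s 0) (s.xi 1)) ≤ H (up1 (kap s 0) Y) + h (up1 (kap s 0) (s.xi 1)) (up1 (kap s 0) Y) := by
    rw [← H_chain]
    exact H_mono le_sup_right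
  have h5 := h_up1_le (kap s 0) (s.xi 1) Y
  rw [h1, H_bot] at h4
  rw [h1] at h5
  have h6 := H_nonneg Y
  linarith

/-- **ST(1), robust connected systems**: the line is constant up to a level `e` and the point is full beyond -/
theorem full_sys (s : Sys S 1) (hP : RobP s) (hic : ic s 0 = 0) :
    ∃ e : ℝ, 0 ≤ e ∧ e ≤ 1 ∧ H (s.xi e) = 0 ∧ s.F 0 1 = 1 - e := by
  obtain ⟨e, he0, he1, hxe, hxu⟩ := exists_const_level s
  refine ⟨e, he0, he1, hxe, ?_⟩
  have key := full_core (co s.a) (co s.x) (co s.t) he0 he1 (by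
      rw [co_dg _ le_rfl, co_dg _ le_rfl, co_dg _ le_rfl]; exact s.ht)
    (by
      intro T p E hE r hr0 hr1
      rw [← co_P, co_dg _ hr1, co_dg _ le_rfl]
      have h1 := hP.F_eq p E hE le_rfl zero_le_one hr0 hr1
      rw [F_im, s.F_zero_left] at h1
      rw [((s.pull p).rest E hE).F_zero_left] at h1
      rw [Sys.rest_P_dg, Sys.rest_T] at h1
      have e1 : (s.pull p).P.dg r = p.map (s.P.dg r) := by
        rw [Sys.pull_P, ← p.map_dg]
      have e2 : (s.pull p).T = p.map s.T := (p.map_dg s.t 1).symm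
      rw [e1, e2] at h1
      exact h1)
    (by
      rw [← co_P, co_dg _ he1, co_dg _ le_rfl]
      apply le_antisymm _ (h_nonneg _ _)
      have h1 : h (s.P.dg e) s.T ≤ h (s.xi e ⊔ s.T) s.T := h_mono (s.P_le he1)
      have h2 : h (s.xi e ⊔ s.T) s.T = h (s.xi e) s.T := h_sup_right_of_le le_rfl
      have h3 := h_le_H (s.xi e) s.T
      have h4 : h (s.P.dg e) (s.t.dg 1) = h (s.P.dg e) s.T := rfl
      linarith)
    (by
      intro u hu hu1
      rw [← co_P, co_dg _ hu1, co_dg _ le_rfl, co_dg _ le_rfl]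
      rcases eq_or_lt_of_le (h_nonneg (s.x.dg u) (s.P.dg 1 ⊔ s.t.dg 1)) with h1 | h1
      · exfalso
        have h2 : s.x.dg u ≤ lB s := h_eq_zero_iff.mp h1.symm
        have h3 : s.a.dg u ≤ lB s := by
          refine (s.a_le hu1).trans (sup_le (sup_le ?_ h2) le_sup_right)
          exact (s.P.dg_mono hu1).trans le_sup_left
        have h4 := H_common s hic (s.xi_mono hu1) (sup_le h3 h2)
        have h5 := hxu u hu hu1
        linarith
      · exact h1)
  rw [← co_P, co_dg _ le_rfl, co_dg _ le_rfl] at key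
  rw [s.F_zero_left]
  exact key

end

end Pool.Agent.Helper35.S1
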