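import Pool.Agent.Helper80.MX.Span
import Pool.Agent.Helper25.EC.M1

/-!
# ST(1), core: one space coordinate

Lines `y = a + t x` over a full time `t`. If the rates `h (y_r | t)` do not change on events of positive probability of
extensions and the slope is not known to the point and the time at any positive level, then `y` is full given `t`.
-/

set_option autoImplicit false

namespace Pool.Agent.Helper35.S1

open Set Filter Topology Pool.Agent.Helper69.RK Pool.Agent.Helper31.EC Pool.Agent.Helper31.EC.Sp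
open Pool.Agent.Helper80.MX Pool.Agent.Helper25.EC
open Pool.Agent.Helper31.EC.QS

noncomputable section

/-- a level at which a deficient function is unsaturated on all intervals below -/
theorem exists_level {F : ℝ → ℝ} {e : ℝ} (he : e ≤ 1) (hc : Continuous F) (h0 : F e = 0) (h1 : F 1 < 1 - e)
    (hF : 0 ≤ F 1) : ∃ r ρ : ℝ, e < r ∧ r ≤ 1 ∧ 0 < ρ ∧ ρ ≤ 1 ∧
      ∀ v, e ≤ v → v ≤ r → F r - F v ≤ (1 - ρ) * (r - v) := by
  have he1 : 0 < 1 - e := by linarith
  set ρ : ℝ := (1 - e - F 1) / (2 * (1 - e)) with hρ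
  have hρ0 : 0 < ρ := by rw [hρ]; exact div_pos (by linarith) (by linarith)
  have hρ1 : ρ ≤ 1 := by rw [hρ, div_le_one (by linarith)]; linarith
  have hρ2 : 2 * (ρ * (1 - e)) = 1 - e - F 1 := by
    rw [hρ]; field_simp
  have hG : ContinuousOn (fun r : ℝ => r - F r - ρ * r) (Icc e 1) :=
    ((continuous_id.sub hc).sub (continuous_const.mul continuous_id)).continuousOn
  obtain ⟨r, hr, hmax⟩ := isCompact_Icc.exists_isMaxOn (nonempty_Icc.mpr he) hG
  have h2 := hmax (right_mem_Icc.mpr he)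
  simp only [Set.mem_ofPred_eq] at h2
  refine ⟨r, ρ, ?_, hr.2, hρ0, hρ1, ?_⟩
  · rcases eq_or_lt_of_le hr.1 with h | h
    · rw [← h, h0] at h2
      nlinarith
    · exact h
  · intro v hv hvr
    have h3 := hmax (⟨hv, hvr.trans hr.2⟩ : v ∈ Icc e 1)
    simp only [Set.mem_ofPred_eq] at h3
    nlinarith

variable {W : Sp}

theorem rep_dg (f : QS W) {r : ℝ} (hr : r ≤ 1) : TR.dg (rep f) r = dg f r := by
  show _ = TR.dg (mk_surj f).choose (min r 1)
  rw [min_eq_left hr]
  rfl

/-- agreement of representatives -/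
theorem ag_of_sub_mem {f g : TR W} {r : ℝ} (hr : r ≤ 1) (h : mk f - mk g ∈ Id W r) : TR.Ag r f g := by
  rw [← map_sub, mk_mem_Id hr] at h
  have h2 := TR.Ag.add h (TR.Ag.refl r g)
  rw [sub_add_cancel, zero_add] at h2
  exact h2

/-- a bound on a typical event gives agreement -/
theorem ag_of_typ {f g : TR W} {r : ℝ} (h : Typ (fun k ω => |TR.ev (f - g) k ω| ≤ W.dl r k)) : TR.Ag r f g := by
  refine ⟨_, fun _ => 1, h, W.Sub_const zero_le_one, Eventually.of_forall fun k ω _ hω => ?_⟩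
  rw [one_mul]
  rw [TR.ev_sub] at hω
  exact hω

/-- the time is full over the line, level by level -/
theorem h_time {A : W.L} {t : QS W} (hT : h (dg t 1) A = 1) {r : ℝ} (h0 : 0 ≤ r) (h1 : r ≤ 1) :
    h (dg t r) A = r := by
  apply le_antisymm
  · have h2 := h_le_H (dg t r) A
    have h3 := H_dg_le t h0
    linarith
  · have e1 : dg t 1 = dg t r ⊔ dg t 1 := (sup_eq_right.mpr (dg_mono t h1)).symm
    have h3 : h (dg t r ⊔ dg t 1) A = h (dg t r) A + h (dg t 1) (dg t r ⊔ A) := h_chain _ _ _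
    rw [← e1, hT] at h3
    have h4 : h (dg t 1) (dg t r ⊔ A) ≤ h (dg t 1) (dg t r) := h_anti le_sup_left
    have h5 := h_dg_dg t h1
    linarith

/-- **ST(1), core.** `y = a + t x`, `t` full over `(a, x)`; `h (y_r | t)` does not change on events of positive
probability of extensions; `y` is a function of `t` up to the level `e`, and `x` is not known to `(t, y)` at any level
above `e`. Then `h (y_1 | t) = 1 - e`. -/
theorem full_core (a x t : QS W) {e : ℝ} (he0 : 0 ≤ e) (he1 : e ≤ 1) (hT : h (dg t 1) (dg a 1 ⊔ dg x 1) = 1)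
    (hF : ∀ (T : Sp) (p : Pj T W) (E : ∀ k, (T.F k).Ω → Prop) (hE : 0 < ul (T.pr E)) (r : ℝ), 0 ≤ r → r ≤ 1 →
      h (restL E hE (p.map (dg (a + t * x) r))) (restL E hE (p.map (dg t 1))) = h (dg (a + t * x) r) (dg t 1))
    (hye : h (dg (a + t * x) e) (dg t 1) = 0)
    (hr : ∀ u : ℝ, e < u → u ≤ 1 → 0 < h (dg x u) (dg (a + t * x) 1 ⊔ dg t 1)) :
    h (dg (a + t * x) 1) (dg t 1) = 1 - e := by
  set y : QS W := a + t * x with hy
  have hmono : ∀ v r : ℝ, v ≤ r → h (dg y v) (dg t 1) ≤ h (dg y r) (dg t 1) := fun v r hvr =>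
    h_mono (dg_mono y hvr)
  have hlip : ∀ v r : ℝ, v ≤ r → h (dg y r) (dg t 1) - h (dg y v) (dg t 1) ≤ r - v := by
    intro v r hvr
    have h2 := h_triangle (dg y r) (dg y v) (dg t 1)
    have h3 : h (dg y r) (dg y v ⊔ dg t 1) ≤ h (dg y r) (dg y v) := h_anti le_sup_left
    have h4 := h_dg_dg y hvr
    linarith
  have hcont : Continuous (fun r : ℝ => h (dg y r) (dg t 1)) := by
    have h2 : LipschitzWith 1 (fun r : ℝ => h (dg y r) (dg t 1)) := by
      apply LipschitzWith.of_dist_le_mul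
      intro r v
      rw [Real.dist_eq, Real.dist_eq, NNReal.coe_one, one_mul]
      rcases le_total v r with h | h
      · rw [abs_of_nonneg (by linarith [hmono v r h]), abs_of_nonneg (by linarith)]
        exact hlip v r h
      · rw [abs_sub_comm, abs_sub_comm r v, abs_of_nonneg (by linarith [hmono r v h]), abs_of_nonneg (by linarith)]
        exact hlip r v h
    exact h2.continuous
  by_contra hne
  have h1 : h (dg y 1) (dg t 1) < 1 - e := by
    refine lt_of_le_of_ne ?_ hne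
    have := hlip e 1 he1
    linarith
  obtain ⟨r, ρ, her, hr1, hρ, hρ1, hlev0⟩ := exists_level he1 hcont hye h1 (h_nonneg _ _)
  have hr0 : 0 < r := by linarith
  have hlev : ∀ v, 0 ≤ v → v ≤ r → h (dg y r) (dg t 1) - h (dg y v) (dg t 1) ≤ (1 - ρ) * (r - v) := by
    intro v hv hvr
    rcases le_total e v with h2 | h2
    · exact hlev0 v h2 hvr
    · have h3 := hlev0 e le_rfl her.le
      have h4 := h_nonneg (dg y v) (dg t 1)
      have h5 : (1 - ρ) * (r - e) ≤ (1 - ρ) * (r - v) := mul_le_mul_of_nonneg_left (by linarith) (by linarith)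
      linarith
  -- the line and the time
  set L : W.L := dg a 1 ⊔ dg x 1 with hL
  have hyL : ∀ v : ℝ, v ≤ 1 → dg y v ≤ L ⊔ dg t v := by
    intro v hv
    refine (dg_add_le a (t * x) hv).trans (sup_le ((dg_mono a hv).trans (le_sup_left.trans le_sup_left)) ?_)
    refine (dg_mul_le t x hv).trans (sup_le le_sup_right ((dg_mono x hv).trans (le_sup_right.trans le_sup_left)))
  have htr : h (dg t r) L = r := h_time hT hr0.le hr1
  have hI0 : I (dg t 1) L (dg t r) = 0 := by
    have e1 : dg t 1 = dg t r ⊔ dg t 1 := (sup_eq_right.mpr (dg_mono t hr1)).symm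
    have h3 : h (dg t r ⊔ dg t 1) L = h (dg t r) L + h (dg t 1) (dg t r ⊔ L) := h_chain _ _ _
    rw [← e1, hT, htr, sup_comm (dg t r)] at h3
    have h4 := h_dg_dg t hr1
    have h5 := I_nonneg (dg t 1) L (dg t r)
    rw [I_eq] at h5 ⊢
    linarith
  -- copies given the point and the time up to level `r`
  set f : Fin 2 → QS W := ![qfl t r hr0.le, qfl y r hr0.le] with hf
  have hdq : ∀ g : QS W, dg (qfl g r hr0.le) 1 = dg g r := fun g =>
    le_antisymm (qfl_dg_le g hr0.le hr1 1)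
      ((dg_eq_of_sub_mem (sub_qfl_mem g hr0.le hr1) le_rfl hr1).le.trans (dg_mono _ hr1))
  have hvd : vd f 1 = dg t r ⊔ dg y r := by
    apply le_antisymm
    · rw [vd_le]
      intro i
      fin_cases i
      · exact (hdq t).le.trans le_sup_left
      · exact (hdq y).le.trans le_sup_right
    · exact sup_le ((hdq t).ge.trans (dg_le_vd f 1 0)) ((hdq y).ge.trans (dg_le_vd f 1 1))
  obtain ⟨C⟩ := exists_CQ f 1
  set p0 := C.p 0 with hp0
  set p1 := C.p 1 with hp1
  have hv0 : C.v = p0.map (dg t r ⊔ dg y r) := by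
    rw [← hvd]; rfl
  have hclose : ∀ g : QS W, p0.qs (qfl g r hr0.le) = p1.qs (qfl g r hr0.le) → p0.qs g - p1.qs g ∈ Id C.W r := by
    intro g hg
    have e0 : p0.qs (g - qfl g r hr0.le) ∈ Id C.W r := (p0.qs_mem_Id hr1).mpr (sub_qfl_mem g hr0.le hr1)
    have e1 : p1.qs (g - qfl g r hr0.le) ∈ Id C.W r := (p1.qs_mem_Id hr1).mpr (sub_qfl_mem g hr0.le hr1)
    have e2 := (Id C.W r).sub_mem e0 e1
    rw [map_sub, map_sub, hg] at e2
    have e3 : p0.qs g - p1.qs g = p0.qs g - p1.qs (qfl g r hr0.le) - (p1.qs g - p1.qs (qfl g r hr0.le)) := by ring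
    rw [e3]
    exact e2
  have hct : p0.qs t - p1.qs t ∈ Id C.W r := hclose t (C.com 0 1 0)
  have hcy : p0.qs y - p1.qs y ∈ Id C.W r := hclose y (C.com 0 1 1)
  have hmk : ∀ p : Pj C.W W, mk (p.tr (rep a) + p.tr (rep t) * p.tr (rep x)) = p.qs y := by
    intro p
    rw [map_add, map_mul, ← p.qs_mk, ← p.qs_mk, ← p.qs_mk, mk_rep, mk_rep, mk_rep, hy, map_add, map_mul]
  have hdy : ∀ (p : Pj C.W W) (v : ℝ), v ≤ 1 → TR.dg (p.tr (rep a) + p.tr (rep t) * p.tr (rep x)) v = p.map (dg y v) := by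
    intro p v hv
    rw [← dg_mk _ hv, hmk, p.qs_dg]
  have hdr : ∀ (p : Pj C.W W) (g : QS W) (v : ℝ), v ≤ 1 → TR.dg (p.tr (rep g)) v = p.map (dg g v) := by
    intro p g v hv
    rw [p.tr_dg, rep_dg g hv]
  have htl : h (dg t r) (dg x r ⊔ dg a r) = r := by
    apply le_antisymm
    · exact (h_le_H _ _).trans (H_dg_le t hr0.le)
    · rw [← htr]
      exact (h_anti (sup_le ((dg_mono x hr1).trans le_sup_right) ((dg_mono a hr1).trans le_sup_left))).trans_eq
        (by rw [htr])
  have htc : p0.map (dg t r) = p1.map (dg t r) := by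
    rw [← p0.qs_dg, ← p1.qs_dg]
    exact dg_eq_of_sub_mem hct le_rfl hr1
  have key := m1_agree (p0.tr (rep x)) (p0.tr (rep a)) (p0.tr (rep t)) (p1.tr (rep x)) (p1.tr (rep a))
    (p1.tr (rep t)) r ((r - e) / 2) ρ (by linarith) (by linarith) hρ
    (ag_of_sub_mem hr1 (by rw [hmk, hmk]; exact hcy))
    (ag_of_sub_mem hr1 (by rw [← p0.qs_mk, ← p1.qs_mk, mk_rep]; exact hct))
    (by rw [hdr _ _ _ hr1, hdr _ _ _ hr1, hdr _ _ _ hr1, ← p0.map_sup, p0.h_map]; exact htl)
    (by rw [hdr _ _ _ hr1, hdr _ _ _ hr1, hdr _ _ _ hr1, ← p1.map_sup, htc, p1.h_map]; exact htl)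
    (by
      rw [hdr _ _ _ hr1, hdr _ _ _ hr1, hdr _ _ _ hr1, hdr _ _ _ hr1, hdr _ _ _ hr1, hdy _ _ hr1, ← p0.map_sup,
        ← p1.map_sup, ← p0.map_sup, ← hv0]
      exact C.I_two (by decide) _ _)
    ?_
  · have hag : TR.Ag (r - (r - e) / 2) (p0.tr (rep x)) (p1.tr (rep x)) := ag_of_typ key
    have e1 : p0.map (dg x (r - (r - e) / 2)) = p1.map (dg x (r - (r - e) / 2)) := by
      rw [← hdr p0 x _ (by linarith), ← hdr p1 x _ (by linarith)]
      exact hag.dg_eq le_rfl
    have e2 : I (p0.map (dg x (r - (r - e) / 2))) (p1.map (dg x (r - (r - e) / 2))) C.v = 0 := C.I_two (by decide) _ _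
    rw [← e1] at e2
    have e3 : p0.map (dg x (r - (r - e) / 2)) ≤ C.v := le_of_I_zero (B := p0.map (dg x (r - (r - e) / 2))) le_sup_left e2
    have e4 : h (p0.map (dg x (r - (r - e) / 2))) C.v = 0 := h_zero e3
    rw [hv0, p0.h_map] at e4
    have e5 := hr (r - (r - e) / 2) (by linarith) (by linarith)
    have e6 : h (dg x (r - (r - e) / 2)) (dg y 1 ⊔ dg t 1) ≤ h (dg x (r - (r - e) / 2)) (dg t r ⊔ dg y r) :=
      h_anti (sup_le ((dg_mono t hr1).trans le_sup_right) ((dg_mono y hr1).trans le_sup_left))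
    linarith
  · intro E hE v hv0' hvr
    rw [hdy _ _ hr1, hdy _ _ (by linarith), hdr _ _ _ hr1]
    have hvr' : v ≤ r := by linarith
    have g1 : I (dg t 1) (dg y v ⊔ dg y r) (dg t r) = 0 := by
      refine I_zero_mono hI0 le_sup_left (sup_le ?_ (hyL r hr1))
      exact (hyL v (hvr'.trans hr1)).trans (sup_le_sup_left (dg_mono t hvr') _)
    have g2 : I (dg t 1) (dg y r) (dg y v ⊔ dg t r) = 0 := (I_decomp g1).2
    have g3 : I (p0.map (dg t 1)) (p0.map (dg y r)) (p0.map (dg y v ⊔ dg t r)) = 0 := by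
      rw [p0.I_map]; exact g2
    have g4 := I_rest_zero E hE g3
    rw [I_zero_iff_h', p0.map_sup, restL_sup] at g4
    rw [← g4]
    have g5 : h (restL E hE (p0.map (dg y r))) (restL E hE (p0.map (dg t 1)) ⊔
        (restL E hE (p0.map (dg y v)) ⊔ restL E hE (p0.map (dg t r)))) =
        h (restL E hE (p0.map (dg y r))) (restL E hE (p0.map (dg y v)) ⊔ restL E hE (p0.map (dg t 1))) := by
      have g6 : restL E hE (p0.map (dg t r)) ≤ restL E hE (p0.map (dg t 1)) :=
        restL_mono E hE (p0.map_mono (dg_mono t hr1))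
      apply congrArg
      apply le_antisymm
      · exact sup_le le_sup_right (sup_le le_sup_left (g6.trans le_sup_right))
      · exact sup_le (le_sup_left.trans le_sup_right) le_sup_left
    rw [g5]
    have g7 := h_chain (restL E hE (p0.map (dg y v))) (restL E hE (p0.map (dg y r))) (restL E hE (p0.map (dg t 1)))
    have g8 : restL E hE (p0.map (dg y v)) ⊔ restL E hE (p0.map (dg y r)) = restL E hE (p0.map (dg y r)) :=
      sup_eq_right.mpr (restL_mono E hE (p0.map_mono (dg_mono y hvr')))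
    rw [g8, hF _ p0 E hE r hr0.le hr1, hF _ p0 E hE v hv0' (hvr'.trans hr1)] at g7
    have g9 := hlev v hv0' hvr'
    linarith

end

end Pool.Agent.Helper35.S1
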