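import Pool.Agent.Helper35.S1.Scl

/-!
# ST(1), core with levels

Lines `y = a + t x` over a time `t` which is constant up to the level `c` and full beyond, over the line. If `y` is
constant up to the level `c + u` then `x` has size `2 ^ (-u n)`; if moreover the rates `h (y_r | t)` do not change on
events of extensions and `x` is not known to the point and the time at any level above `u`, then
`h (y_1 | t) = 1 - c - u`.
-/

set_option autoImplicit false

namespace Pool.Agent.Helper35.S1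

open Filter Topology Pool.Agent.Helper69.RK Pool.Agent.Helper31.EC Pool.Agent.Helper31.EC.Sp
open Pool.Agent.Helper80.MX Pool.Agent.Helper25.EC
open Pool.Agent.Helper31.EC.QS

noncomputable section

variable {W : Sp}

theorem dg_sub_bot {f g : QS W} {r : ℝ} (hr : r ≤ 1) (hg : dg g r = ⊥) : dg (f - g) r = dg f r := by
  apply le_antisymm
  · have h1 := dg_sub_le f g hr
    rwa [hg, sup_bot_eq] at h1
  · have h1 := dg_add_le (f - g) g hr
    rwa [sub_add_cancel, hg, sup_bot_eq] at h1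

/-- full at the top: full at every level -/
theorem h_time_c {A : W.L} {t : QS W} {c : ℝ} (htc : dg t c = ⊥) (hT : h (dg t 1) A = 1 - c) {r : ℝ} (h0 : c ≤ r)
    (h1 : r ≤ 1) : h (dg t r) A = r - c := by
  apply le_antisymm
  · have h2 := h_le_H (dg t r) A
    have h3 := H_dg_le_sub htc h0
    linarith
  · have e1 : dg t 1 = dg t r ⊔ dg t 1 := (sup_eq_right.mpr (dg_mono t h1)).symm
    have h3 : h (dg t r ⊔ dg t 1) A = h (dg t r) A + h (dg t 1) (dg t r ⊔ A) := h_chain _ _ _
    rw [← e1, hT] at h3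
    have h4 : h (dg t 1) (dg t r ⊔ A) ≤ h (dg t 1) (dg t r) := h_anti le_sup_left
    have h5 := h_dg_dg t h1
    linarith

/-- full on events -/
theorem h_time_rest {A : W.L} {t : QS W} {c : ℝ} (htc : dg t c = ⊥) (hT : h (dg t 1) A = 1 - c) {r : ℝ} (h0 : c ≤ r)
    (h1 : r ≤ 1) (E : ∀ k, (W.F k).Ω → Prop) (hE : 0 < ul (W.pr E)) :
    h (restL E hE (dg t r)) (restL E hE A) = r - c := by
  have u1 : ∀ (F : ∀ k, (W.F k).Ω → Prop) (hF : 0 < ul (W.pr F)), h (restL F hF (dg t r)) (restL F hF A) ≤ r - c := by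
    intro F hF
    refine (h_le_H _ _).trans ?_
    rw [← rest_dg F hF]
    exact H_dg_le_sub (rest_dg_bot F hF htc) h0
  have ht := h_time_c htc hT h0 h1
  rcases typ_or E with hty | hE'
  · have h2 := h_restL_typ E hty (dg t r) A
    exact h2.trans ht
  · have h2 := h_split E hE hE' (dg t r) A
    rw [ht] at h2
    have h3 := u1 E hE
    have h4 := mul_le_mul_of_nonneg_left (u1 _ hE') (sub_nonneg.mpr (ul_pr_le_one E))
    apply le_antisymm h3
    by_contra hlt
    have h5 := mul_lt_mul_of_pos_left (not_le.mp hlt) hE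
    nlinarith

/-- if `a + t x` is constant up to the level `c + u` and `t` is full beyond `c` over `(a, x)` then `x` has size
`2 ^ (-u n)` -/
theorem slope_small (a x t : QS W) {c u : ℝ} (hc : 0 ≤ c) (hcu : c + u ≤ 1) (htc : dg t c = ⊥)
    (hT : h (dg t 1) (dg a 1 ⊔ dg x 1) = 1 - c) (hy : dg (a + t * x) (c + u) = ⊥) : x ∈ Id W u := by
  apply mem_Id_of_lt (by linarith)
  intro s hs
  rcases le_or_gt s 0 with hs0 | hs0
  · exact mem_Id_nonpos hs0
  by_contra hx
  have h1 : ¬ Typ (fun k ω => |TR.ev (rep x) k ω| ≤ W.dl s k) := by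
    intro h2
    apply hx
    rw [← mk_rep x, mk_mem_Id (by linarith)]
    apply ag_of_typ
    rw [sub_zero]
    exact h2
  obtain ⟨v, K, hv0, hvs, hK, hE⟩ := bin (rep x) s ((u - s) / 2) hs0.le (by linarith) h1
  set E : ∀ k, (W.F k).Ω → Prop := fun k ω => W.dl (v + (u - s) / 2) k < |TR.ev (rep x) k ω| ∧
    |TR.ev (rep x) k ω| ≤ K k * W.dl v k with hEd
  have hmem := rest_mem E hE
  have h2 : TR.dg (rst E (rep t)) (c + u - (v + (u - s) / 2)) ≤
      TR.dg (rst E (rep x)) (c + u) ⊔ TR.dg (rst E (rep (a + t * x) - rep a)) (c + u) := by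
    apply div_dg_le
    · filter_upwards [hmem] with k hk ω hω
      exact (hk ω hω).2.1
    · have h3 : TR.Ag 1 (rep t * rep x) (rep (a + t * x) - rep a) := mk_eq.mp (by
        rw [map_mul, map_sub, mk_rep, mk_rep, mk_rep, mk_rep]
        ring)
      exact (ag_rst E hE h3).anti hcu
  rw [rst_dg E hE, rst_dg E hE, rst_dg E hE, rep_dg t (by linarith), rep_dg x hcu] at h2
  have h4 : TR.dg (rep (a + t * x) - rep a) (c + u) ≤ dg a 1 := by
    rw [← dg_mk _ hcu, map_sub, mk_rep, mk_rep]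
    refine (dg_sub_le _ _ hcu).trans (sup_le ?_ (dg_mono a hcu))
    rw [hy]
    exact bot_le
  have h5 : restL E hE (dg t (c + u - (v + (u - s) / 2))) ≤ restL E hE (dg a 1 ⊔ dg x 1) := by
    refine h2.trans ?_
    rw [restL_sup]
    exact sup_le ((restL_mono E hE (dg_mono x hcu)).trans le_sup_right) ((restL_mono E hE h4).trans le_sup_left)
  have h6 := h_zero h5
  have h7 := h_time_rest htc hT (r := c + u - (v + (u - s) / 2)) (by linarith) (by linarith) E hE
  rw [h6] at h7
  linarith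

/-- **ST(1), core with levels.** -/
theorem full_cu (a x t : QS W) {c u : ℝ} (hc : 0 ≤ c) (hu : 0 ≤ u) (hcu : c + u ≤ 1) (htc : dg t c = ⊥)
    (hT : h (dg t 1) (dg a 1 ⊔ dg x 1) = 1 - c) (hyb : dg (a + t * x) (c + u) = ⊥)
    (hF : ∀ (T : Sp) (p : Pj T W) (E : ∀ k, (T.F k).Ω → Prop) (hE : 0 < ul (T.pr E)) (r : ℝ), c + u ≤ r → r ≤ 1 →
      h (restL E hE (p.map (dg (a + t * x) r))) (restL E hE (p.map (dg t 1))) = h (dg (a + t * x) r) (dg t 1))
    (hr : ∀ r : ℝ, u < r → r ≤ 1 → 0 < h (dg x r) (dg (a + t * x) 1 ⊔ dg t 1)) :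
    h (dg (a + t * x) 1) (dg t 1) = 1 - c - u := by
  have hxu : x ∈ Id W u := slope_small a x t hc hcu htc hT hyb
  set y : QS W := a + t * x with hy
  have hcu0 : 0 ≤ c + u := add_nonneg hc hu
  have hmono : ∀ v r : ℝ, v ≤ r → h (dg y v) (dg t 1) ≤ h (dg y r) (dg t 1) := fun v r hvr =>
    h_mono (dg_mono y hvr)
  have hlip : ∀ v r : ℝ, v ≤ r → h (dg y r) (dg t 1) - h (dg y v) (dg t 1) ≤ r - v := by
    intro v r hvr
    have h2 := h_triangle (dg y r) (dg y v) (dg t 1)
    have h3 : h (dg y r) (dg y v ⊔ dg t 1) ≤ h (dg y r) (dg y v) := h_anti le_sup_left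
    have h4 := h_dg_dg y hvr
    linarith
  have hcont : Continuous (fun r : ℝ => h (dg y r) (dg t 1)) := by
    have h2 : LipschitzWith 1 (fun r : ℝ => h (dg y r) (dg t 1)) := by
      apply LipschitzWith.of_dist_le_mul
      intro r v
      rw [Real.dist_eq, Real.dist_eq, NNReal.coe_one, one_mul]
      rcases le_total v r with h | h
      · rw [abs_of_nonneg (by linarith [hmono v r h]), abs_of_nonneg (by linarith)]
        exact hlip v r h
      · rw [abs_sub_comm, abs_sub_comm r v, abs_of_nonneg (by linarith [hmono r v h]), abs_of_nonneg (by linarith)]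
        exact hlip r v h
    exact h2.continuous
  have hy1 : h (dg y (c + u)) (dg t 1) = 0 := h_zero (hyb.trans_le bot_le)
  by_contra hne
  have h1 : h (dg y 1) (dg t 1) < 1 - (c + u) := by
    refine lt_of_le_of_ne ?_ fun e => hne (by linarith)
    have := hlip (c + u) 1 hcu
    linarith
  obtain ⟨r, ρ, her, hr1, hρ, hρ1, hlev⟩ := exists_level hcu hcont hy1 h1 (h_nonneg _ _)
  have hr0 : 0 ≤ r := by linarith
  have hru0 : 0 ≤ r - u := by linarith
  have hru1 : r - u ≤ 1 := by linarith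
  set R : ℝ := r - (c + u) with hR
  have hR0 : 0 < R := by linarith
  have eRc : R + c = r - u := by rw [hR]; ring
  have eRcu : R + (c + u) = r := by rw [hR]; ring
  -- the constants
  set t0 : QS W := qfl t c hc with ht0
  set y0 : QS W := qfl y (c + u) hcu0 with hy0
  have bt0 : ∀ l, dg t0 l = ⊥ := fun l => le_bot_iff.mp ((qfl_dg_le t hc (by linarith) l).trans_eq htc)
  have by0 : ∀ l, dg y0 l = ⊥ := fun l => le_bot_iff.mp ((qfl_dg_le y hcu0 hcu l).trans_eq hyb)
  have mt : t - t0 ∈ Id W c := sub_qfl_mem t hc (by linarith)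
  have my : y - y0 ∈ Id W (c + u) := sub_qfl_mem y hcu0 hcu
  have ma : a + t0 * x - y0 ∈ Id W (c + u) := by
    have e : a + t0 * x - y0 = (y - y0) - (t - t0) * x := by rw [hy]; ring
    rw [e]
    exact (Id W (c + u)).sub_mem my (Id_mul (by linarith) (by linarith) mt hxu)
  obtain ⟨τ, hτ⟩ := exists_sc hc (by linarith) mt
  obtain ⟨α, hα⟩ := exists_sc hu (by linarith) hxu
  obtain ⟨β, hβ⟩ := exists_sc hcu0 hcu ma
  have hZ : Sc (c + u) hcu0 (y - y0) (β + τ * α) := by
    have h3 := hβ.add (hτ.mul hα)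
    have e : a + t0 * x - y0 + (t - t0) * x = y - y0 := by rw [hy]; ring
    rw [e] at h3
    exact h3
  have dτ : TR.dg τ R = dg t (r - u) := by
    rw [hτ.dg (by linarith), dg_sub_bot (by linarith) (bt0 _), eRc]
  have dα : ∀ v, v + u ≤ 1 → TR.dg α v = dg x (v + u) := fun v hv => hα.dg hv
  have dβ : TR.dg β R ≤ dg a 1 ⊔ dg x 1 := by
    have hv : R + (c + u) ≤ 1 := by linarith
    rw [hβ.dg hv, dg_sub_bot hv (by0 _)]
    refine (dg_add_le _ _ hv).trans (sup_le ((dg_mono a hv).trans le_sup_left) ?_)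
    refine (dg_mul_le _ _ hv).trans (sup_le ?_ ((dg_mono x hv).trans le_sup_right))
    rw [bt0]
    exact bot_le
  have dZ : ∀ v, v + (c + u) ≤ 1 → TR.dg (β + τ * α) v = dg y (v + (c + u)) := fun v hv => by
    rw [hZ.dg hv, dg_sub_bot hv (by0 _)]
  -- the line and the time
  set L : W.L := dg a 1 ⊔ dg x 1 with hL
  have hyL : ∀ v : ℝ, u ≤ v → v ≤ 1 → dg y v ≤ L ⊔ dg t (v - u) := by
    intro v huv hv
    have h3 : t - qfl t (v - u) (by linarith) ∈ Id W (v - u) := sub_qfl_mem t _ (by linarith)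
    have h4 : (t - qfl t (v - u) (by linarith)) * x ∈ Id W v := by
      have h5 := Id_mul (r := v - u) (s := u) (by linarith) (by linarith) h3 hxu
      rwa [sub_add_cancel] at h5
    have h6 : y - (a + qfl t (v - u) (by linarith) * x) ∈ Id W v := by
      have e : y - (a + qfl t (v - u) (by linarith) * x) = (t - qfl t (v - u) (by linarith)) * x := by rw [hy]; ring
      rw [e]
      exact h4
    rw [dg_eq_of_sub_mem h6 le_rfl hv]
    refine (dg_add_le _ _ hv).trans (sup_le ((dg_mono a hv).trans (le_sup_left.trans le_sup_left)) ?_)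
    refine (dg_mul_le _ _ hv).trans (sup_le ?_ ((dg_mono x hv).trans (le_sup_right.trans le_sup_left)))
    exact (qfl_dg_le t _ (by linarith) v).trans le_sup_right
  have htr : h (dg t (r - u)) L = R := by
    rw [h_time_c htc hT (by linarith) hru1, hR]
    ring
  have hI0 : I (dg t 1) L (dg t (r - u)) = 0 := by
    have e1 : dg t 1 = dg t (r - u) ⊔ dg t 1 := (sup_eq_right.mpr (dg_mono t hru1)).symm
    have h3 : h (dg t (r - u) ⊔ dg t 1) L = h (dg t (r - u)) L + h (dg t 1) (dg t (r - u) ⊔ L) := h_chain _ _ _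
    rw [← e1, hT, htr, sup_comm (dg t (r - u))] at h3
    have h4 := h_dg_dg t hru1
    have h5 := I_nonneg (dg t 1) L (dg t (r - u))
    rw [I_eq] at h5 ⊢
    linarith
  -- copies
  set f : Fin 4 → QS W := ![qfl t (r - u) hru0, qfl y r hr0, t0, y0] with hf
  have hdq : ∀ (g : QS W) (s : ℝ) (hs0 : 0 ≤ s) (hs1 : s ≤ 1), dg (qfl g s hs0) 1 = dg g s := fun g s hs0 hs1 =>
    le_antisymm (qfl_dg_le g hs0 hs1 1)
      ((dg_eq_of_sub_mem (sub_qfl_mem g hs0 hs1) le_rfl hs1).le.trans (dg_mono _ hs1))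
  have hvd : vd f 1 = dg t (r - u) ⊔ dg y r := by
    apply le_antisymm
    · rw [vd_le]
      intro i
      fin_cases i
      · exact (hdq t _ hru0 hru1).le.trans le_sup_left
      · exact (hdq y _ hr0 hr1).le.trans le_sup_right
      · exact (bt0 1).trans_le bot_le
      · exact (by0 1).trans_le bot_le
    · exact sup_le ((hdq t _ hru0 hru1).ge.trans (dg_le_vd f 1 0)) ((hdq y _ hr0 hr1).ge.trans (dg_le_vd f 1 1))
  obtain ⟨C⟩ := exists_CQ f 1
  set p0 := C.p 0 with hp0
  set p1 := C.p 1 with hp1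
  have hv0 : C.v = p0.map (dg t (r - u)) ⊔ p0.map (dg y r) := by
    rw [← p0.map_sup, ← hvd]; rfl
  have hclose : ∀ (g : QS W) (s : ℝ) (hs0 : 0 ≤ s) (hs1 : s ≤ 1), p0.qs (qfl g s hs0) = p1.qs (qfl g s hs0) →
      p0.qs g - p1.qs g ∈ Id C.W s := by
    intro g s hs0 hs1 hg
    have e0 : p0.qs (g - qfl g s hs0) ∈ Id C.W s := (p0.qs_mem_Id hs1).mpr (sub_qfl_mem g hs0 hs1)
    have e1 : p1.qs (g - qfl g s hs0) ∈ Id C.W s := (p1.qs_mem_Id hs1).mpr (sub_qfl_mem g hs0 hs1)
    have e2 := (Id C.W s).sub_mem e0 e1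
    rw [map_sub, map_sub, hg] at e2
    have e3 : p0.qs g - p1.qs g = p0.qs g - p1.qs (qfl g s hs0) - (p1.qs g - p1.qs (qfl g s hs0)) := by ring
    rw [e3]
    exact e2
  have hct : p0.qs t - p1.qs t ∈ Id C.W (r - u) := hclose t _ hru0 hru1 (C.com 0 1 0)
  have hcy : p0.qs y - p1.qs y ∈ Id C.W r := hclose y _ hr0 hr1 (C.com 0 1 1)
  have hct0 : p0.qs t0 = p1.qs t0 := C.com 0 1 2
  have hcy0 : p0.qs y0 = p1.qs y0 := C.com 0 1 3
  have hz : TR.Ag R (p0.tr (β + τ * α)) (p1.tr (β + τ * α)) := by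
    apply (hZ.tr p0).ag (hZ.tr p1) hr1
    rw [map_sub, map_sub, hcy0]
    have e : p0.qs y - p1.qs y0 - (p1.qs y - p1.qs y0) = p0.qs y - p1.qs y := by ring
    rw [e]
    exact hcy
  have hta : TR.Ag R (p0.tr τ) (p1.tr τ) := by
    have h3 : TR.Ag (r - u - c) (p0.tr τ) (p1.tr τ) := by
      apply (hτ.tr p0).ag (hτ.tr p1) hru1
      rw [map_sub, map_sub, hct0]
      have e : p0.qs t - p1.qs t0 - (p1.qs t - p1.qs t0) = p0.qs t - p1.qs t := by ring
      rw [e]
      exact hct
    have e : r - u - c = R := by rw [hR]; ring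
    rwa [e] at h3
  have hTl : ∀ p : Pj C.W W, h (TR.dg (p.tr τ) R) (TR.dg (p.tr α) R ⊔ TR.dg (p.tr β) R) = R := by
    intro p
    rw [p.tr_dg, p.tr_dg, p.tr_dg, ← p.map_sup, p.h_map, dτ]
    apply le_antisymm
    · refine (h_le_H _ _).trans ((H_dg_le_sub htc (by linarith)).trans_eq ?_)
      rw [hR]; ring
    · rw [← htr]
      refine (h_anti (sup_le ?_ dβ)).trans_eq (by rw [htr])
      rw [dα R (by linarith)]
      exact (dg_mono x (by linarith)).trans le_sup_right
  have key := m1_agree (p0.tr α) (p0.tr β) (p0.tr τ) (p1.tr α) (p1.tr β) (p1.tr τ) R (R / 2) ρ (by linarith)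
    (by linarith) hρ
    (by
      rw [← map_mul, ← map_add, ← map_mul, ← map_add]
      exact hz) hta (hTl p0)
    (by
      rw [hta.dg_eq le_rfl]
      exact hTl p1)
    (by
      rw [← map_mul, ← map_add, p0.tr_dg, p0.tr_dg, p0.tr_dg, p0.tr_dg, p1.tr_dg, p1.tr_dg, dτ, dZ R (by linarith),
        eRcu, ← p0.map_sup, ← p1.map_sup, ← hv0]
      exact C.I_two (by decide) _ _)
    ?_
  · have hag : TR.Ag (R - R / 2) (p0.tr α) (p1.tr α) := ag_of_typ key
    have hle : R - R / 2 + u ≤ 1 := by linarith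
    have e1 : p0.map (dg x (R - R / 2 + u)) = p1.map (dg x (R - R / 2 + u)) := by
      have h3 := hag.dg_eq le_rfl
      rwa [p0.tr_dg, p1.tr_dg, dα _ hle] at h3
    have e2 : I (p0.map (dg x (R - R / 2 + u))) (p1.map (dg x (R - R / 2 + u))) C.v = 0 := C.I_two (by decide) _ _
    rw [← e1] at e2
    have e3 : p0.map (dg x (R - R / 2 + u)) ≤ C.v := le_of_I_zero (B := p0.map (dg x (R - R / 2 + u))) le_sup_left e2
    have e4 : h (p0.map (dg x (R - R / 2 + u))) C.v = 0 := h_zero e3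
    rw [hv0, ← p0.map_sup, p0.h_map] at e4
    have e5 := hr (R - R / 2 + u) (by linarith) hle
    have e6 : h (dg x (R - R / 2 + u)) (dg y 1 ⊔ dg t 1) ≤ h (dg x (R - R / 2 + u)) (dg t (r - u) ⊔ dg y r) :=
      h_anti (sup_le ((dg_mono t hru1).trans le_sup_right) ((dg_mono y hr1).trans le_sup_left))
    linarith
  · intro E hE v hv0' hvr
    have hvv : v + (c + u) ≤ r := by linarith
    rw [← map_mul, ← map_add, p0.tr_dg, p0.tr_dg, p0.tr_dg, dτ, dZ R (by linarith), dZ v (by linarith), eRcu]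
    have g1 : I (dg t 1) (dg y (v + (c + u)) ⊔ dg y r) (dg t (r - u)) = 0 := by
      refine I_zero_mono hI0 le_sup_left (sup_le ?_ (hyL r (by linarith) hr1))
      exact (hyL _ (by linarith) (hvv.trans hr1)).trans (sup_le_sup_left (dg_mono t (by linarith)) _)
    have g2 : I (dg t 1) (dg y r) (dg y (v + (c + u)) ⊔ dg t (r - u)) = 0 := (I_decomp g1).2
    have g3 : I (p0.map (dg t 1)) (p0.map (dg y r)) (p0.map (dg y (v + (c + u)) ⊔ dg t (r - u))) = 0 := by
      rw [p0.I_map]; exact g2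
    have g4 := I_rest_zero E hE g3
    rw [I_zero_iff_h', p0.map_sup, restL_sup] at g4
    rw [← g4]
    have g5 : h (restL E hE (p0.map (dg y r))) (restL E hE (p0.map (dg t 1)) ⊔
        (restL E hE (p0.map (dg y (v + (c + u)))) ⊔ restL E hE (p0.map (dg t (r - u))))) =
        h (restL E hE (p0.map (dg y r))) (restL E hE (p0.map (dg y (v + (c + u)))) ⊔ restL E hE (p0.map (dg t 1))) := by
      have g6 : restL E hE (p0.map (dg t (r - u))) ≤ restL E hE (p0.map (dg t 1)) :=
        restL_mono E hE (p0.map_mono (dg_mono t hru1))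
      apply congrArg
      apply le_antisymm
      · exact sup_le le_sup_right (sup_le le_sup_left (g6.trans le_sup_right))
      · exact sup_le (le_sup_left.trans le_sup_right) le_sup_left
    rw [g5]
    have g7 := h_chain (restL E hE (p0.map (dg y (v + (c + u))))) (restL E hE (p0.map (dg y r)))
      (restL E hE (p0.map (dg t 1)))
    have g8 : restL E hE (p0.map (dg y (v + (c + u)))) ⊔ restL E hE (p0.map (dg y r)) = restL E hE (p0.map (dg y r)) :=
      sup_eq_right.mpr (restL_mono E hE (p0.map_mono (dg_mono y hvv)))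
    rw [g8, hF _ p0 E hE r her.le hr1, hF _ p0 E hE _ (by linarith) (hvv.trans hr1)] at g7
    have g9 := hlev (v + (c + u)) (by linarith) hvv
    have g10 : r - (v + (c + u)) = R - v := by rw [hR]; ring
    rw [g10] at g9
    linarith

/-- the same for a slope with a known part `x0` -/
theorem full_cu_x0 (a x t x0 : QS W) {c u : ℝ} (hc : 0 ≤ c) (hu : 0 ≤ u) (hcu : c + u ≤ 1) (htc : dg t c = ⊥)
    (hx0 : dg x0 1 = ⊥) (hT : h (dg t 1) (dg a 1 ⊔ dg x 1) = 1 - c) (hyb : dg (a + t * (x - x0)) (c + u) = ⊥)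
    (hF : ∀ (T : Sp) (p : Pj T W) (E : ∀ k, (T.F k).Ω → Prop) (hE : 0 < ul (T.pr E)) (r : ℝ), c + u ≤ r → r ≤ 1 →
      h (restL E hE (p.map (dg (a + t * x) r))) (restL E hE (p.map (dg t 1))) = h (dg (a + t * x) r) (dg t 1))
    (hr : ∀ r : ℝ, u < r → r ≤ 1 → 0 < h (dg x r) (dg (a + t * x) 1 ⊔ dg t 1)) :
    h (dg (a + t * x) 1) (dg t 1) = 1 - c - u := by
  have b0 : ∀ l, dg x0 l = ⊥ := by
    intro l
    rcases le_total l 1 with h | h
    · exact le_bot_iff.mp ((dg_mono x0 h).trans_eq hx0)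
    · rw [dg_cut x0 h, hx0]
  have ex : ∀ r, r ≤ 1 → dg (x - x0) r = dg x r := fun r hr => dg_sub_bot hr (b0 r)
  have e0 : a + t * (x - x0) = a + t * x - t * x0 := by ring
  have e1 : ∀ r, r ≤ 1 → dg (a + t * (x - x0)) r ≤ dg (a + t * x) r ⊔ dg t 1 := by
    intro r hr1
    rw [e0]
    refine (dg_sub_le _ _ hr1).trans (sup_le le_sup_left ((dg_mul_le _ _ hr1).trans (sup_le ?_ ?_)))
    · exact (dg_mono t hr1).trans le_sup_right
    · rw [b0]
      exact bot_le
  have e2 : ∀ r, r ≤ 1 → dg (a + t * x) r ≤ dg (a + t * (x - x0)) r ⊔ dg t 1 := by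
    intro r hr1
    have e3 : a + t * x = a + t * (x - x0) + t * x0 := by ring
    rw [e3]
    refine (dg_add_le _ _ hr1).trans (sup_le le_sup_left ((dg_mul_le _ _ hr1).trans (sup_le ?_ ?_)))
    · exact (dg_mono t hr1).trans le_sup_right
    · rw [b0]
      exact bot_le
  have e3 : ∀ r, r ≤ 1 → dg (a + t * (x - x0)) r ⊔ dg t 1 = dg (a + t * x) r ⊔ dg t 1 := fun r hr1 =>
    le_antisymm (sup_le (e1 r hr1) le_sup_right) (sup_le (e2 r hr1) le_sup_right)
  have e4 : ∀ r, r ≤ 1 → h (dg (a + t * (x - x0)) r) (dg t 1) = h (dg (a + t * x) r) (dg t 1) := by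
    intro r hr1
    have h1 := h_sup_right_of_le (A := dg (a + t * (x - x0)) r) (le_refl (dg t 1))
    have h2 := h_sup_right_of_le (A := dg (a + t * x) r) (le_refl (dg t 1))
    rw [← h1, ← h2, e3 r hr1]
  have key := full_cu a (x - x0) t hc hu hcu htc (by rw [ex 1 le_rfl]; exact hT) hyb (by
      intro T p E hE r h0 h1
      have h2 := h_sup_right_of_le (A := restL E hE (p.map (dg (a + t * (x - x0)) r)))
        (le_refl (restL E hE (p.map (dg t 1))))
      have h3 := h_sup_right_of_le (A := restL E hE (p.map (dg (a + t * x) r)))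
        (le_refl (restL E hE (p.map (dg t 1))))
      rw [e4 r h1, ← hF T p E hE r h0 h1, ← h2, ← h3, ← restL_sup, ← restL_sup, ← p.map_sup, ← p.map_sup, e3 r h1])
    (by
      intro r h0 h1
      rw [ex r h1, e3 1 le_rfl]
      exact hr r h0 h1)
  rw [← e4 1 le_rfl]
  exact key

end

end Pool.Agent.Helper35.S1
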