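import Pool.Agent.Helper42.NS.PlF

/-!
# Common digits of the line and of the point give linear containers (dimension one)

`s` a system of lines in the plane. If the line up to the level `σ` is a function of the point, then `H(c, σ)` holds for
every window `c ≥ 0` (with forms of any degree `D ≥ 1`).
-/

set_option autoImplicit false

namespace Pool.Agent.Helper35.S1

open Finset Filter Topology Matrix Pool.Agent.Helper69.RK Pool.Agent.Helper31.EC Pool.Agent.Helper31.EC.Sp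
open Pool.Agent.Helper40.EL Pool.Agent.Helper95.LF Pool.Agent.Helper89.LX Pool.Agent.Helper3.LF Pool.Agent.Helper42.NS

noncomputable section

/-! ### the polynomials `y - α - ξ t` -/

section

open MvPolynomial

/-- the polynomial `y - α - ξ t` -/
def lp (α ξ : ℝ) : MvPolynomial (Fin 2) ℝ := X 1 - C α - C ξ * X 0

theorem lp_deg (α ξ : ℝ) {D : ℕ} (hD : 1 ≤ D) : (lp α ξ).totalDegree ≤ D := by
  refine le_trans ?_ hD
  unfold lp
  refine (totalDegree_sub _ _).trans (max_le ((totalDegree_sub _ _).trans (max_le ?_ ?_)) ?_)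
  · rw [totalDegree_X]
  · rw [totalDegree_C]; exact Nat.zero_le _
  · refine (totalDegree_mul _ _).trans ?_
    rw [totalDegree_C, totalDegree_X]

theorem eval_lp (α ξ : ℝ) (p : Fin 2 → ℝ) : eval p (lp α ξ) = p 1 - α - ξ * p 0 := by
  unfold lp
  rw [map_sub, map_sub, map_mul, eval_X, eval_X, eval_C, eval_C]

theorem pderiv_lp (α ξ : ℝ) : pderiv 1 (lp α ξ) = 1 := by
  unfold lp
  rw [map_sub, map_sub, Derivation.leibniz, pderiv_C, pderiv_C, pderiv_X_self, pderiv_X_of_ne (by decide)]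
  simp

/-- the coefficients -/
def lv {D : ℕ} (hD : 1 ≤ D) (α ξ : ℝ) : Mon 2 D → ℝ := (exists_pol (lp α ξ) (lp_deg α ξ hD)).choose

theorem pol_lv {D : ℕ} (hD : 1 ≤ D) (α ξ : ℝ) : pol (lv hD α ξ) = lp α ξ :=
  (exists_pol (lp α ξ) (lp_deg α ξ hD)).choose_spec.symm

theorem ph_lv {D : ℕ} (hD : 1 ≤ D) (α ξ r M : ℝ) (p : Fin 2 → ℝ) (hr : 0 ≤ r)
    (h : |p 1 - α - ξ * p 0| + r * (1 + |ξ|) ≤ M) : ph D (pol (lv hD α ξ)) r p ≤ nn 2 D * M ^ 2 := by
  rw [pol_lv]
  unfold ph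
  refine (Finset.sum_le_card_nsmul _ _ (M ^ 2) fun j _ => ?_).trans (le_of_eq ?_)
  · rw [eval_lp, ← sq_abs]
    refine pow_le_pow_left₀ (abs_nonneg _) (le_trans ?_ h) 2
    unfold nodp
    have e1 : p 1 + r * nod D (j 1) - α - ξ * (p 0 + r * nod D (j 0)) =
        (p 1 - α - ξ * p 0) + r * (nod D (j 1) - ξ * nod D (j 0)) := by ring
    rw [e1]
    refine (abs_add_le _ _).trans (add_le_add le_rfl ?_)
    rw [abs_mul, abs_of_nonneg hr]
    apply mul_le_mul_of_nonneg_left _ hr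
    have h1 := nod_le D (j 1) (Nat.le_of_lt_succ (j 1).2)
    have h2 := nod_le D (j 0) (Nat.le_of_lt_succ (j 0).2)
    have h3 := nod_nonneg D (j 1)
    have h4 := nod_nonneg D (j 0)
    calc |nod D (j 1) - ξ * nod D (j 0)| ≤ |nod D (j 1)| + |ξ * nod D (j 0)| := abs_sub _ _
      _ ≤ 1 + |ξ| := by
          rw [abs_mul, abs_of_nonneg h3, abs_of_nonneg h4]
          have h5 : |ξ| * nod D (j 0) ≤ |ξ| * 1 := mul_le_mul_of_nonneg_left h2 (abs_nonneg _)
          linarith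
  · rw [nsmul_eq_mul, card_nodes]

theorem ga_lv {D : ℕ} (hD : 1 ≤ D) (α ξ r : ℝ) (p : Fin 2 → ℝ) : 1 ≤ ga D (pol (lv hD α ξ)) r p := by
  have h1 : ph D (pderiv 1 (pol (lv hD α ξ))) r p ≤ ga D (pol (lv hD α ξ)) r p := by
    unfold ga
    exact Finset.single_le_sum (f := fun i => ph D (pderiv i (pol (lv hD α ξ))) r p)
      (fun i _ => ph_nonneg _ _ _) (Finset.mem_univ 1)
  refine le_trans ?_ h1
  rw [pol_lv, pderiv_lp]
  unfold ph
  have h2 : ∀ j : Fin 2 → Fin (D + 1), (eval (nodp D p r j) (1 : MvPolynomial (Fin 2) ℝ)) ^ 2 = 1 := by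
    intro j
    rw [map_one, one_pow]
  rw [Finset.sum_congr rfl fun j _ => h2 j, Finset.sum_const, nsmul_eq_mul, card_nodes, mul_one]
  exact nn_one 2 D

end

/-! ### labels of informations -/

variable {S : Sp}

/-- the label of an information of the space -/
def labI (X : S.Inf) : Lab S := fun k =>
  { T := S.F k
    p := (FLab.triv (S.F k)).p
    hn := rfl
    V := X.1 k }

theorem labI_leak (X : S.Inf) (k : ℕ) (x : FL (S.F k)) : (labI X k).leak x = h (fc (X.1 k) : FL (S.F k)) x := by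
  unfold FLab.leak
  have h1 : (labI X k).p.map x = x := by
    induction x using fc_ind
    rfl
  have h2 : (labI X k).v ≤ (labI X k).p.top := by
    apply fc_le
    intro ω ω' _ _ _ e
    have e' : ω = ω' := e
    rw [e']
  rw [h1]
  have h3 : I (labI X k).v (labI X k).p.top x = h (labI X k).v x - h (labI X k).v ((labI X k).p.top ⊔ x) :=
    I_eq _ _ _
  have h4 : h (labI X k).v ((labI X k).p.top ⊔ x) = 0 := h_zero (h2.trans le_sup_left)
  rw [h3, h4, sub_zero]
  rfl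

/-- common functions of the line with the coarse time and of the point are labels of the window -/
theorem labI_DM {m : ℕ} (s : Sys S m) {c : ℝ} {X : S.Inf} (hA : cl X ≤ lA s c) (hB : cl X ≤ lB s) :
    (labI X).DM (cA s c) (cB s) := by
  have e1 : PLe (rpI X) (cA s c) := by
    rw [cA_eq, PLe_rpI, cl_A]
    exact hA
  have e2 : PLe (rpI X) (cB s) := by
    rw [cB_eq, PLe_rpI, cl_B]
    exact hB
  have h1 : (fun k => (labI X k).leak (cA s c k)) = fun k => h (rpI X k) (cA s c k) := by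
    funext k
    exact labI_leak X k _
  have h2 : (fun k => (labI X k).leak (cB s k)) = fun k => h (rpI X k) (cB s k) := by
    funext k
    exact labI_leak X k _
  constructor
  · rw [h1]; exact e1
  · rw [h2]; exact e2

/-! ### the container -/

/-- the corner of the cell -/
def cnr (δ y : ℝ) : ℝ := δ * ⌊y / δ⌋

theorem cnr_near {δ : ℝ} (hδ : 0 < δ) (y : ℝ) : |y - cnr δ y| ≤ δ := by
  unfold cnr
  have h1 := Int.floor_le (y / δ)
  have h2 := Int.lt_floor_add_one (y / δ)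
  rw [le_div_iff₀ hδ] at h1
  rw [div_lt_iff₀ hδ] at h2
  rw [abs_le]
  constructor <;> nlinarith

variable {D : ℕ}

/-- **the line up to the level `σ` as a function of the point**: `H(c, σ)` -/
theorem Hf_of_xi (s : Sys S 1) (hD : 1 ≤ D) {c σ : ℝ} (h0 : 0 ≤ σ) (h1 : σ ≤ 1) (hB : s.xi σ ≤ lB s) :
    Hf s D c σ := by
  classical
  obtain ⟨Ka, hKa, hba⟩ := s.a.bd
  obtain ⟨Kx, hKx, hbx⟩ := s.x.bd
  obtain ⟨Kt, hKt, hbt⟩ := s.t.bd
  obtain ⟨K0, hK0, hone⟩ := (gau s D).one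
  set X : S.Inf := Inf.sup (s.Ia σ) (s.Ix σ) with hX
  have hcl : cl X = s.xi σ := by
    rw [hX, cl_sup, s.cl_Ia, s.cl_Ix]
    rfl
  have hDM : (labI X).DM (cA s c) (cB s) :=
    labI_DM s (by rw [hcl]; exact (s.xi_mono h1).trans le_sup_left) (by rw [hcl]; exact hB)
  -- the form
  set v : ∀ k, (S.F k).Ω → Mon 2 D → ℝ := fun k ω =>
    lv hD (cnr (S.dl σ k) (s.a.v k ω 0)) (cnr (S.dl σ k) (s.x.v k ω 0)) with hv
  set w : ℕ → ℝ := fun k => 2 ^ (2 * σ * (S.F k).n) with hw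
  have hw0 : ∀ k, 0 < w k := fun k => by rw [hw]; positivity
  have hwd : ∀ k, w k * S.dl σ k ^ 2 = 1 := by
    intro k
    show (2 : ℝ) ^ (2 * σ * (S.F k).n) * (2 ^ (-(σ * (S.F k).n))) ^ 2 = 1
    rw [← Real.rpow_natCast (2 ^ _) 2, ← Real.rpow_mul (by norm_num), ← Real.rpow_add (by norm_num)]
    have : 2 * σ * (S.F k).n + -(σ * (S.F k).n) * ((2 : ℕ) : ℝ) = 0 := by push_cast; ring
    rw [this, Real.rpow_zero]
  set g : ∀ k, (S.F k).Ω → Matrix (Mon 2 D) (Mon 2 D) ℝ := fun k ω => nfm (w k) (v k ω) with hg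
  set K1 : ℕ → ℝ := fun k => K0 k + nn 2 D * (1 + Kt k + (1 + (Kx k + 1))) ^ 2 with hK1
  have hK1s : S.Sub K1 := by
    have e1 : S.Sub (fun k => 1 + Kt k + (1 + (Kx k + 1))) :=
      ((S.Sub_const zero_le_one).add hKt).add ((S.Sub_const zero_le_one).add (hKx.add (S.Sub_const zero_le_one)))
    have e2 : (0 : ℝ) ≤ nn 2 D := zero_le_one.trans (nn_one 2 D)
    exact hK0.add ((S.Sub_const e2).mul (Sub_pow' e1 2))
  have hphi : ∀ᶠ k in UF, ∀ ω, (S.F k).μ ω ≠ 0 → sph s D k ω (g k ω) ≤ K1 k := by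
    filter_upwards [hone, hbx, hbt, hKx.1, hKt.1] with k a1 a2 a3 a4 a5 ω hω
    have hd := S.dl_pos σ k
    have hd1 := S.dl_pos 1 k
    have hd2 : S.dl 1 k ≤ S.dl σ k := S.dl_anti h1 k
    unfold sph
    rw [hg]
    dsimp only
    rw [nfm_phi]
    apply add_le_add (a1 ω hω)
    have ht : |s.t.v k ω 0| ≤ Kt k := a3 ω hω 0
    have hx : |s.x.v k ω 0| ≤ Kx k := a2 ω hω 0
    set α : ℝ := cnr (S.dl σ k) (s.a.v k ω 0) with hα
    set ξ : ℝ := cnr (S.dl σ k) (s.x.v k ω 0) with hξ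
    have n1 : |s.a.v k ω 0 - α| ≤ S.dl σ k := cnr_near hd _
    have n2 : |s.x.v k ω 0 - ξ| ≤ S.dl σ k := cnr_near hd _
    have hle : S.dl σ k ≤ 1 := by
      have := S.dl_anti h0 k
      have e0 : S.dl 0 k = 1 := by
        unfold Sp.dl
        rw [zero_mul, neg_zero, Real.rpow_zero]
      rwa [e0] at this
    have n3 : |ξ| ≤ Kx k + 1 := by
      have e1 : ξ = s.x.v k ω 0 - (s.x.v k ω 0 - ξ) := by ring
      rw [e1]
      refine (abs_sub _ _).trans ?_
      linarith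
    have key := ph_lv hD α ξ (S.dl 1 k) (S.dl σ k * (1 + Kt k + (1 + (Kx k + 1)))) (ptf s k ω) hd1.le (by
      have e1 : ptf s k ω 1 - α - ξ * ptf s k ω 0 =
          (s.a.v k ω 0 - α) + s.t.v k ω 0 * (s.x.v k ω 0 - ξ) := by
        show (s.a.v k ω 0 + s.t.v k ω 0 * s.x.v k ω 0) - α - ξ * s.t.v k ω 0 = _
        ring
      rw [e1]
      have e2 : |(s.a.v k ω 0 - α) + s.t.v k ω 0 * (s.x.v k ω 0 - ξ)| ≤ S.dl σ k + Kt k * S.dl σ k := by
        refine (abs_add_le _ _).trans (add_le_add n1 ?_)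
        rw [abs_mul]
        exact mul_le_mul ht n2 (abs_nonneg _) a5
      have e3 : S.dl 1 k * (1 + |ξ|) ≤ S.dl σ k * (1 + (Kx k + 1)) :=
        mul_le_mul hd2 (by linarith) (by positivity) hd.le
      nlinarith)
    calc w k * ph D (pol (v k ω)) (S.dl 1 k) (ptf s k ω)
        ≤ w k * (nn 2 D * (S.dl σ k * (1 + Kt k + (1 + (Kx k + 1)))) ^ 2) :=
          mul_le_mul_of_nonneg_left key (hw0 k).le
      _ = (w k * S.dl σ k ^ 2) * (nn 2 D * (1 + Kt k + (1 + (Kx k + 1))) ^ 2) := by ring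
      _ = nn 2 D * (1 + Kt k + (1 + (Kx k + 1))) ^ 2 := by rw [hwd, one_mul]
  have hcap : ∀ᶠ k in UF, ∀ ω, (S.F k).μ ω ≠ 0 → Cpd ((gau s D).cp k) (g k ω) := by
    filter_upwards [(gau s D).cap, hK1s.eventually_le one_pos, hphi] with k b1 b2 b3 ω hω
    have g2 : PdM (g k ω) := pdM_of_one_le (nfm_symm _ _) (nfm_one_le (hw0 k).le _)
    refine ⟨nfm_symm _ _, nfm_one_le (hw0 k).le _, fun y => ?_⟩
    refine (b1 _ hω _ g2 y).trans ?_
    apply mul_le_mul_of_nonneg_right _ (dot_self_nonneg y)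
    unfold Gau.cp
    rw [add_mul, Real.rpow_add (by norm_num)]
    apply mul_le_mul_of_nonneg_left _ (by positivity)
    have g3 : (gau s D).φ k ω (g k ω) ≤ K1 k := b3 ω hω
    linarith
  set Y : ∀ k, FD (S.F k) (Mon 2 D) := fun k => mkFD (labI X k)
    (fun ω => capd ((gau s D).cp k) (g k ω)) (by
      intro ω ω' _ _ b _
      obtain ⟨b1, b2⟩ := b
      have e1 : s.a.cellv σ k ω = s.a.cellv σ k ω' := b1
      have e2 : s.x.cellv σ k ω = s.x.cellv σ k ω' := b2
      have e3 := congrFun e1 0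
      have e4 := congrFun e2 0
      have e5 : cnr (S.dl σ k) (s.a.v k ω 0) = cnr (S.dl σ k) (s.a.v k ω' 0) := by
        unfold cnr
        exact congrArg (fun z : ℤ => S.dl σ k * (z : ℝ)) e3
      have e6 : cnr (S.dl σ k) (s.x.v k ω 0) = cnr (S.dl σ k) (s.x.v k ω' 0) := by
        unfold cnr
        exact congrArg (fun z : ℤ => S.dl σ k * (z : ℝ)) e4
      have e7 : g k ω = g k ω' := by
        show nfm (w k) (lv hD (cnr (S.dl σ k) (s.a.v k ω 0)) (cnr (S.dl σ k) (s.x.v k ω 0))) =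
          nfm (w k) (lv hD (cnr (S.dl σ k) (s.a.v k ω' 0)) (cnr (S.dl σ k) (s.x.v k ω' 0)))
        rw [e5, e6]
      rw [e7]) with hY
  refine ⟨Y, ?_, ?_⟩
  · apply ad_mk (Φ := gau s D) Y hDM (fun k => rfl)
      (Eventually.of_forall fun k ω _ => capd_Cpd ((gau s D).one_le_cp k) _) K1 hK1s
    refine typ_mono (S := (lb Y).sp) (E := fun _ _ => True) Sp.Typ_true ?_
    filter_upwards [hphi, hcap] with k b1 b2 ω hω _
    show (gau s D).φ k ω (capd ((gau s D).cp k) (g k ω)) ≤ K1 k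
    rw [capd_eq (b2 ω hω)]
    exact b1 ω hω
  · intro e he
    have h2 : ∀ᶠ k in UF, (Y k).l.T.pb (fun ω => ¬ 2 ^ (2 * (σ - e) * (S.F k).n) ≤
        sga s D k ((Y k).l.p.π ω) ((Y k).g ω)) = 0 := by
      filter_upwards [hcap] with k b2
      unfold FSp.pb mass
      apply Finset.sum_eq_zero
      intro ω _
      by_cases hμ : (S.F k).μ ω = 0
      · show res (S.F k).μ _ ω = 0
        unfold res
        rw [hμ, ite_self]
      · have hn := (S.F k).pos
        have e1 : 2 ^ (2 * (σ - e) * (S.F k).n) ≤ sga s D k ((Y k).l.p.π ω) ((Y k).g ω) := by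
          show 2 ^ (2 * (σ - e) * (S.F k).n) ≤ gam (S.dl 1 k) (capd ((gau s D).cp k) (g k ω)) (ptf s k ω)
          rw [capd_eq (b2 ω hμ)]
          have e2 : w k * ga D (pol (v k ω)) (S.dl 1 k) (ptf s k ω) ≤ gam (S.dl 1 k) (g k ω) (ptf s k ω) :=
            nfm_gam _ _
          have e3 := ga_lv hD (cnr (S.dl σ k) (s.a.v k ω 0)) (cnr (S.dl σ k) (s.x.v k ω 0)) (S.dl 1 k) (ptf s k ω)
          have e4 : (2 : ℝ) ^ (2 * (σ - e) * (S.F k).n) ≤ w k := by
            apply Real.rpow_le_rpow_of_exponent_le (by norm_num)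
            nlinarith
          have e5 : w k * 1 ≤ w k * ga D (pol (v k ω)) (S.dl 1 k) (ptf s k ω) :=
            mul_le_mul_of_nonneg_left e3 (hw0 k).le
          linarith
        show res (S.F k).μ _ ω = 0
        unfold res
        rw [if_neg]
        exact fun hc => hc e1
    exact tendsto_const_nhds.congr' (h2.mono fun k hk => hk.symm)

end

end Pool.Agent.Helper35.S1
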