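import Pool.Agent.Helper35.S1.Sy
import Pool.Agent.Helper35.S1.Hfc
import Pool.Agent.Helper42.NS.Hfb
import Pool.Agent.Helper3.PR.Ful

/-!
# `ST_D(1)` for all systems

Over the label `kappa_0` of the canonical form of the window `0` the points of a system of lines in the plane fill the
regular volume of the canonical form; forms of any degree `D ≥ 1`.
-/

set_option autoImplicit false

namespace Pool.Agent.Helper35.S1

open Filter Topology Pool.Agent.Helper69.RK Pool.Agent.Helper31.EC Pool.Agent.Helper31.EC.Sp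
open Pool.Agent.Helper40.EL Pool.Agent.Helper52.SL Pool.Agent.Helper42.NS Pool.Agent.Helper3.LF Pool.Agent.Helper3.PR

noncomputable section

/-- robust connected systems in the plane fill the regular volume -/
theorem vol_of_rob {S : Sp} (s : Sys S 1) (hP : RobP s) (hic : ic s 0 = 0) {D : ℕ} (hD : 1 ≤ D) :
    1 ≤ s.F 0 1 + lvol s D 0 / 2 := by
  obtain ⟨e, he0, he1, hxe, hF⟩ := full_sys s hP hic
  have hB : s.xi e ≤ lB s := h_eq_zero_iff.mp (le_antisymm ((h_le_H _ _).trans hxe.le) (h_nonneg _ _))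
  obtain ⟨τ, hτ, h3⟩ := lvol_pr s le_rfl zero_lt_one (Hf_of_xi s hD (c := 0) he0 he1 hB)
    (by rcases eq_or_lt_of_le he0 with h | h
        · exact Or.inr h.symm.le
        · exact Or.inl h)
  have h4 := lvol_nonneg (D := D) (prT s τ hτ) 0
  rw [hF]
  linarith

/-- **`ST_D(1)`** -/
theorem ST_one (D : ℕ) (hD : 1 ≤ D) : Pool.Agent.Helper59.EV.ST D 1 := by
  by_contra hST
  obtain ⟨C, d, hd, hC, h1⟩ := exists_cls_of_not_ST hST
  obtain ⟨_, _, _, _, C', hC', h2, _⟩ := two_steps hC (fun _ => GD 1 D) (fun _ => psiF (GD 1 D) 0 0) 1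
    (fun q S s => psi_le_one _ _ _)
  obtain ⟨S, s, hs⟩ := hC'.ne
  obtain ⟨hC1, _, hR⟩ := h2 S s hs
  obtain ⟨hic, hvol⟩ := h1 S s hC1
  have h3 := vol_of_rob s hR.p hic hD
  rw [Nat.cast_one] at hvol
  linarith

end

end Pool.Agent.Helper35.S1
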