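import Pool.Agent.Helper35.S1.Core

/-!
# Scaled functions

`f` a function of size `2 ^ (-s n)`; `g` with `2 ^ (-s n) g = f`. Digits and agreement.
-/

set_option autoImplicit false

namespace Pool.Agent.Helper35.S1

open Filter Topology Pool.Agent.Helper69.RK Pool.Agent.Helper31.EC Pool.Agent.Helper31.EC.Sp
open Pool.Agent.Helper31.EC.QS Pool.Agent.Helper80.MX

noncomputable section

theorem dl_zero' (S : Sp) (k : ℕ) : S.dl 0 k = 1 := by
  unfold Sp.dl
  rw [zero_mul, neg_zero, Real.rpow_zero]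

/-- the constant `2 ^ (-s n)` -/
def cst (S : Sp) (s : ℝ) (hs : 0 ≤ s) : TR S := ⟨fun k _ => S.dl s k, fun _ => 1, S.Sub_const zero_le_one,
  Eventually.of_forall fun k ω _ => by
    show |S.dl s k| ≤ 1
    rw [abs_of_pos (S.dl_pos s k), ← dl_zero' S k]
    exact S.dl_anti hs k⟩

variable {S : Sp}

theorem ev_cst {s : ℝ} (hs : 0 ≤ s) (k : ℕ) (ω : (S.F k).Ω) : TR.ev (cst S s hs) k ω = S.dl s k := rfl

theorem tr_cst {T : Sp} (p : Pj T S) {s : ℝ} (hs : 0 ≤ s) : p.tr (cst S s hs) = cst T s hs := by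
  apply Subtype.ext
  funext k ω
  show S.dl s k = T.dl s k
  unfold Sp.dl
  rw [p.hn]

/-- `2 ^ (-s n) g = f` -/
def Sc (s : ℝ) (hs : 0 ≤ s) (f : QS S) (g : TR S) : Prop := mk (cst S s hs * g) = f

theorem exists_sc {f : QS S} {s : ℝ} (hs : 0 ≤ s) (hs1 : s ≤ 1) (hf : f ∈ Id S s) : ∃ g, Sc s hs f g := by
  classical
  have h1 : TR.Ag s (rep f) 0 := by
    have h2 : TR.Ag (min s 1) (rep f) 0 := hf
    rwa [min_eq_left hs1] at h2
  obtain ⟨E, K, hE, hK, hh⟩ := h1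
  refine ⟨⟨fun k ω => if |TR.ev (rep f) k ω| ≤ K k * S.dl s k then TR.ev (rep f) k ω / S.dl s k else 0, K, hK, ?_⟩, ?_⟩
  · filter_upwards [hK.1] with k hk ω _
    show |if |TR.ev (rep f) k ω| ≤ K k * S.dl s k then TR.ev (rep f) k ω / S.dl s k else 0| ≤ K k
    split_ifs with h
    · rw [abs_div, abs_of_pos (S.dl_pos s k), div_le_iff₀ (S.dl_pos s k)]
      exact h
    · rw [abs_zero]
      exact hk
  · show QS.mk _ = f
    rw [← mk_rep f, mk_eq]
    apply TR.Te.ag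
    refine ⟨E, hE, ?_⟩
    filter_upwards [hh] with k hk ω hω he
    have h2 := hk ω hω he
    rw [TR.ev_zero, sub_zero] at h2
    rw [TR.ev_mul, ev_cst, mk_rep]
    show S.dl s k * (if |TR.ev (rep f) k ω| ≤ K k * S.dl s k then TR.ev (rep f) k ω / S.dl s k else 0) = _
    rw [if_pos h2, mul_div_cancel₀ _ (S.dl_pos s k).ne']

theorem cst_dg (g : TR S) {s : ℝ} (hs : 0 ≤ s) (v : ℝ) : TR.dg (cst S s hs * g) (v + s) = TR.dg g v := by
  show io (VV.cellv _ _) = io (VV.cellv _ _)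
  apply congrArg
  funext k ω i
  show ⌊(S.dl s k * TR.ev g k ω) / S.dl (v + s) k⌋ = ⌊TR.ev g k ω / S.dl v k⌋
  rw [add_comm v s, S.dl_add, mul_div_mul_left _ _ (S.dl_pos s k).ne']

theorem Sc.dg {s : ℝ} {hs : 0 ≤ s} {f : QS S} {g : TR S} (h : Sc s hs f g) {v : ℝ} (hv : v + s ≤ 1) :
    TR.dg g v = dg f (v + s) := by
  have h1 : f = mk (cst S s hs * g) := h.symm
  rw [h1, dg_mk _ hv, cst_dg]

theorem Sc.tr {T : Sp} (p : Pj T S) {s : ℝ} {hs : 0 ≤ s} {f : QS S} {g : TR S} (h : Sc s hs f g) :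
    Sc s hs (p.qs f) (p.tr g) := by
  have h1 : f = mk (cst S s hs * g) := h.symm
  show QS.mk _ = _
  rw [h1, p.qs_mk, ← tr_cst p hs, ← map_mul]

theorem Sc.add {s : ℝ} {hs : 0 ≤ s} {f f' : QS S} {g g' : TR S} (h : Sc s hs f g) (h' : Sc s hs f' g') :
    Sc s hs (f + f') (g + g') := by
  show QS.mk _ = _
  rw [mul_add, map_add]
  exact congrArg₂ (· + ·) h h'

theorem Sc.sub {s : ℝ} {hs : 0 ≤ s} {f f' : QS S} {g g' : TR S} (h : Sc s hs f g) (h' : Sc s hs f' g') :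
    Sc s hs (f - f') (g - g') := by
  show QS.mk _ = _
  rw [mul_sub, map_sub]
  exact congrArg₂ (· - ·) h h'

theorem Sc.mul {s s' : ℝ} {hs : 0 ≤ s} {hs' : 0 ≤ s'} {f f' : QS S} {g g' : TR S} (h : Sc s hs f g)
    (h' : Sc s' hs' f' g') : Sc (s + s') (add_nonneg hs hs') (f * f') (g * g') := by
  have h1 : f = mk (cst S s hs * g) := h.symm
  have h2 : f' = mk (cst S s' hs' * g') := h'.symm
  show QS.mk _ = _
  rw [h1, h2, ← map_mul]
  apply congrArg
  have e : cst S (s + s') (add_nonneg hs hs') = cst S s hs * cst S s' hs' := by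
    apply Subtype.ext
    funext k ω
    exact S.dl_add s s' k
  rw [e]
  exact mul_mul_mul_comm _ _ _ _

/-- agreement of scaled functions -/
theorem Sc.ag {s : ℝ} {hs : 0 ≤ s} {f f' : QS S} {g g' : TR S} (h : Sc s hs f g) (h' : Sc s hs f' g') {r : ℝ}
    (hr : r ≤ 1) (hf : f - f' ∈ Id S r) : TR.Ag (r - s) g g' := by
  have h1 : f = mk (cst S s hs * g) := h.symm
  have h2 : f' = mk (cst S s hs * g') := h'.symm
  rw [h1, h2] at hf
  obtain ⟨E, K, hE, hK, hh⟩ := ag_of_sub_mem hr hf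
  refine ⟨E, K, hE, hK, ?_⟩
  filter_upwards [hh] with k hk ω hω he
  have h3 := hk ω hω he
  rw [TR.ev_mul, TR.ev_mul, ev_cst, ← mul_sub, abs_mul, abs_of_pos (S.dl_pos s k)] at h3
  have h4 : S.dl r k = S.dl s k * S.dl (r - s) k := by rw [← S.dl_add]; congr 1; ring
  rw [h4] at h3
  have h5 : S.dl s k * |TR.ev g k ω - TR.ev g' k ω| ≤ S.dl s k * (K k * S.dl (r - s) k) := by
    refine h3.trans (le_of_eq ?_)
    ring
  exact le_of_mul_le_mul_left h5 (S.dl_pos s k)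

end

end Pool.Agent.Helper35.S1
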